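import Pool.Agent.H317.GH.Stm

/-!
# Project GH, statement `S_ZCJ`: conjugation over `ℚ` implies conjugation over `ℤ`
-/

set_option autoImplicit false

namespace Pool.Agent.H390.GH

open Matrix Module Pool.Agent.H317.GR Pool.Agent.H317.GH

/-- a nonzero rational matrix is a multiple of a primitive integral one -/
theorem zcj_prim (n : ℕ) (hn : 2 ≤ n) (P : Matrix (Fin n) (Fin n) ℚ) (hP : P ≠ 0) :
    ∃ (c : ℚ) (Y : Matrix (Fin n) (Fin n) ℤ), c ≠ 0 ∧ (∀ i j, P i j = c * (Y i j : ℚ)) ∧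
      ∀ p : ℕ, p.Prime → ∃ i j, ¬ (p : ℤ) ∣ Y i j := by
  obtain ⟨b, hb⟩ := IsLocalization.exist_integer_multiples_of_finite (nonZeroDivisors ℤ)
    (fun ij : Fin n × Fin n => P ij.1 ij.2)
  choose Y0 hY0 using hb
  obtain ⟨Y, hY, hgcd⟩ := Finset.extract_gcd Y0 (s := Finset.univ)
    ⟨(⟨0, by omega⟩, ⟨0, by omega⟩), Finset.mem_univ _⟩
  have hb0 : ((b : ℤ) : ℚ) ≠ 0 := by
    have h1 : (b : ℤ) ≠ 0 := nonZeroDivisors.coe_ne_zero b
    exact_mod_cast h1
  have hPY : ∀ i j, P i j = (((Finset.univ.gcd Y0 : ℤ) : ℚ) / ((b : ℤ) : ℚ)) * (Y (i, j) : ℚ) := by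
    intro i j
    have h1 := hY0 (i, j)
    rw [hY (i, j) (Finset.mem_univ _)] at h1
    simp only [algebraMap_int_eq, eq_intCast, Int.cast_mul, zsmul_eq_mul] at h1
    field_simp
    linarith
  refine ⟨((Finset.univ.gcd Y0 : ℤ) : ℚ) / ((b : ℤ) : ℚ), Matrix.of fun i j => Y (i, j), ?_,
    hPY, ?_⟩
  · intro h0
    apply hP
    ext i j
    rw [hPY i j, h0, zero_mul]
    rfl
  · intro p hp
    by_contra hcon
    push Not at hcon
    have h1 : (p : ℤ) ∣ Finset.univ.gcd Y := Finset.dvd_gcd fun ij _ => hcon ij.1 ij.2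
    rw [hgcd] at h1
    have h2 := Int.eq_one_of_dvd_one (by positivity) h1
    exact hp.one_lt.ne' (by exact_mod_cast h2)

/-- the determinant of an intertwining primitive matrix is not divisible by `p` -/
theorem zcj_det (n : ℕ) (hn : 2 ≤ n) (Λ : Type) [Group Λ] (φ₁ φ₂ : Λ →* SZ n) (p : ℕ)
    (hp : p.Prime)
    (hd : ∀ A : SZ n, ∃ g, ∀ i j : Fin n, (p : ℤ) ∣ (φ₁ g).val i j - A.val i j)
    (Y : Matrix (Fin n) (Fin n) ℤ) (hYeq : ∀ g, (φ₂ g).val * Y = Y * (φ₁ g).val)
    (hY : ∃ i j, ¬ (p : ℤ) ∣ Y i j) : ¬ (p : ℤ) ∣ Y.det := by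
  have : Fact p.Prime := ⟨hp⟩
  obtain ⟨m1, m2, hm⟩ := hY
  set Z : Matrix (Fin n) (Fin n) (ZMod p) := (Int.castRingHom (ZMod p)).mapMatrix Y with hZ
  have hZm : Z m1 m2 ≠ 0 := by
    intro h
    apply hm
    exact (ZMod.intCast_zmod_eq_zero_iff_dvd _ _).1 h
  have hker : ∀ w : Fin n → ZMod p, Z *ᵥ w = 0 → ∀ A : SZ n,
      Z *ᵥ ((A.val.map (Int.castRingHom (ZMod p))) *ᵥ w) = 0 := by
    intro w hw A
    obtain ⟨g, hg⟩ := hd A
    have h1 : (Int.castRingHom (ZMod p)).mapMatrix (φ₁ g).val =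
        A.val.map (Int.castRingHom (ZMod p)) := by
      ext i j
      have h2 := (ZMod.intCast_zmod_eq_zero_iff_dvd _ _).2 (hg i j)
      rw [Int.cast_sub, sub_eq_zero] at h2
      exact h2
    have h3 := congrArg (Int.castRingHom (ZMod p)).mapMatrix (hYeq g)
    rw [map_mul, map_mul, h1] at h3
    rw [Matrix.mulVec_mulVec, ← h3, ← Matrix.mulVec_mulVec, hw, Matrix.mulVec_zero]
  have hstep : ∀ w : Fin n → ZMod p, Z *ᵥ w = 0 → ∀ i j : Fin n, i ≠ j → w j ≠ 0 →
      Z *ᵥ (Pi.single i 1) = 0 := by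
    intro w hw i j hij hwj
    have h1 := hker w hw (SpecialLinearGroup.transvection hij 1)
    have h2 : ((SpecialLinearGroup.transvection hij (1 : ℤ)).val.map
        (Int.castRingHom (ZMod p))) *ᵥ w = w + w j • (Pi.single i 1 : Fin n → ZMod p) := by
      have e1 : ((SpecialLinearGroup.transvection hij (1 : ℤ)).val.map
          (Int.castRingHom (ZMod p))) = 1 + Matrix.single i j (1 : ZMod p) := by
        change ((Int.castRingHom (ZMod p)).mapMatrix
          ((1 : Matrix (Fin n) (Fin n) ℤ) + Matrix.single i j 1)) = _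
        rw [map_add, map_one]
        congr 1
        ext a b
        simp only [RingHom.mapMatrix_apply, Matrix.map_apply, Matrix.single, Matrix.of_apply]
        split_ifs <;> simp
      rw [e1, Matrix.add_mulVec, Matrix.one_mulVec]
      congr 1
      ext a
      rw [Matrix.mulVec, dotProduct, Finset.sum_eq_single j]
      · by_cases ha : a = i
        · subst ha; simp
        · rw [Matrix.single_apply_of_ne]
          · simp [ha]
          · intro h; exact ha h.1.symm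
      · intro b _ hb
        rw [Matrix.single_apply_of_ne]
        · simp
        · intro h; exact hb h.2.symm
      · intro h; exact absurd (Finset.mem_univ j) h
    rw [h2, Matrix.mulVec_add, hw, zero_add, Matrix.mulVec_smul] at h1
    rcases smul_eq_zero.1 h1 with h | h
    · exact absurd h hwj
    · exact h
  have hdet : Z.det ≠ 0 := by
    intro h0
    obtain ⟨w, hw0, hw⟩ := Matrix.exists_mulVec_eq_zero_iff.2 h0
    obtain ⟨j, hj⟩ := Function.ne_iff.1 hw0
    obtain ⟨i, hi⟩ : ∃ i : Fin n, i ≠ j := by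
      by_cases h0 : j = ⟨0, by omega⟩
      · exact ⟨⟨1, by omega⟩, by rw [h0]; simp [Fin.ext_iff]⟩
      · exact ⟨_, Ne.symm h0⟩
    have hall : ∀ a : Fin n, Z *ᵥ (Pi.single a 1) = 0 := by
      intro a
      by_cases ha : a = j
      · subst ha
        exact hstep (Pi.single i 1) (hstep w hw i a hi hj) a i hi.symm (by simp)
      · exact hstep w hw a j ha hj
    have h1 := congrFun (hall m2) m1
    rw [Matrix.mulVec_single_one] at h1
    exact hZm h1
  intro hdvd
  apply hdet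
  rw [hZ, ← RingHom.map_det]
  exact (ZMod.intCast_zmod_eq_zero_iff_dvd _ _).2 hdvd

theorem zcj : S_ZCJ := by
  intro n hn Λ _ φ₁ φ₂ hd P hP
  have hPne : P.val ≠ 0 := by
    intro h
    have h1 : P.val * (P⁻¹).val = 1 := by
      rw [← Units.val_mul, mul_inv_cancel]; rfl
    rw [h, zero_mul] at h1
    have h2 := congrFun (congrFun h1 ⟨0, by omega⟩) ⟨0, by omega⟩
    simp at h2
  obtain ⟨c, Y, hc, hPY, hprim⟩ := zcj_prim n hn P.val hPne
  have hYeq : ∀ g, (φ₂ g).val * Y = Y * (φ₁ g).val := by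
    intro g
    ext i j
    have h1 : (std n ℚ (φ₂ g) * P).val i j = (P * std n ℚ (φ₁ g)).val i j := by rw [hP g]
    have h2 : ((std n ℚ (φ₂ g) * P).val i j : ℚ) =
        ∑ k, (((φ₂ g).val i k : ℤ) : ℚ) * P.val k j := rfl
    have h3 : ((P * std n ℚ (φ₁ g)).val i j : ℚ) =
        ∑ k, P.val i k * (((φ₁ g).val k j : ℤ) : ℚ) := rfl
    rw [h2, h3] at h1
    have e1 : ∑ k, (((φ₂ g).val i k : ℤ) : ℚ) * P.val k j =
        c * (((∑ k, (φ₂ g).val i k * Y k j : ℤ)) : ℚ) := by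
      rw [Int.cast_sum, Finset.mul_sum]
      refine Finset.sum_congr rfl fun k _ => ?_
      rw [hPY, Int.cast_mul]
      ring
    have e2 : ∑ k, P.val i k * (((φ₁ g).val k j : ℤ) : ℚ) =
        c * (((∑ k, Y i k * (φ₁ g).val k j : ℤ)) : ℚ) := by
      rw [Int.cast_sum, Finset.mul_sum]
      refine Finset.sum_congr rfl fun k _ => ?_
      rw [hPY, Int.cast_mul]
      ring
    rw [e1, e2] at h1
    have h4 := mul_left_cancel₀ hc h1
    rw [Matrix.mul_apply, Matrix.mul_apply]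
    exact_mod_cast h4
  have hunit : IsUnit Y.det := by
    rw [Int.isUnit_iff_natAbs_eq]
    rw [Nat.eq_one_iff_not_exists_prime_dvd]
    intro p hp hdvd
    exact zcj_det n hn Λ φ₁ φ₂ p hp (hd p hp) Y hYeq (hprim p hp) (Int.natCast_dvd.2 hdvd)
  refine ⟨GeneralLinearGroup.mk'' Y hunit, fun g => ?_⟩
  apply Units.ext
  exact hYeq g

end Pool.Agent.H390.GH
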